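import Pool.Agent.H15.HLS.Targets

set_option autoImplicit false

open Pool.Agent.H51.Homog Pool.Agent.H22.HSQ Pool.Agent.H15.HLS

namespace Pool.Agent.H38.HLS

theorem emb_inj {v : ℕ} {W T : Type} {g : T → ZMod v} (x c : ZMod v) (r r' : W ⊕ Fib g c)
    (h : (emb x c r : (ZMod v × W) ⊕ T) = emb x c r') : r = r' := by
  rcases r with i | a <;> rcases r' with i' | a'
  · have h1 : (x, i) = (x, i') := Sum.inl_injective h
    rw [(Prod.mk.inj h1).2]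
  · exact (Sum.inl_ne_inr h).elim
  · exact (Sum.inl_ne_inr h.symm).elim
  · have h1 : a.1 = a'.1 := Sum.inr_injective h
    rw [Subtype.ext h1]

theorem pf_INT (hHIN : T_HIN) (hBLK : T_BLK) (hEXB : T_EXB) (hEQE : T_EQE) (hLIN : T_LIN) :
    T_INT := by
  intro v _ W T _ _ g h q A M G ρ κ ρ' κ' e1 e2 n1 n4 n3 n2
  classical
  have : ∀ c : ZMod v, Fintype (Fib g c) := fun c => Fintype.ofFinite _
  obtain ⟨x₁, y₁, r₁, c₁, hr₁, hc₁, k₁⟩ := hEXB v W T g q G.inv ρ κ n1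
  obtain ⟨x₂, y₂, r₂, c₂, hr₂, hc₂, k₂⟩ := hEXB v W T g q G.inv ρ κ' n2
  obtain ⟨x₃, y₃, r₃, c₃, hr₃, hc₃, k₃⟩ := hEXB v W T g q G.inv ρ' κ n3
  obtain ⟨x₄, y₄, r₄, c₄, hr₄, hc₄, k₄⟩ := hEXB v W T g q G.inv ρ' κ' n4
  have s₁ : sq q A M ρ κ = emb (x₁ + y₁) _ (A (x₁ + 3 * y₁) r₁ c₁) := by
    rw [hr₁, hc₁]
    exact hBLK v W T g q A M G.inv x₁ y₁ r₁ c₁ k₁
  have s₂ : sq q A M ρ κ' = emb (x₂ + y₂) _ (A (x₂ + 3 * y₂) r₂ c₂) := by
    rw [hr₂, hc₂]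
    exact hBLK v W T g q A M G.inv x₂ y₂ r₂ c₂ k₂
  have s₃ : sq q A M ρ' κ = emb (x₃ + y₃) _ (A (x₃ + 3 * y₃) r₃ c₃) := by
    rw [hr₃, hc₃]
    exact hBLK v W T g q A M G.inv x₃ y₃ r₃ c₃ k₃
  have s₄ : sq q A M ρ' κ' = emb (x₄ + y₄) _ (A (x₄ + 3 * y₄) r₄ c₄) := by
    rw [hr₄, hc₄]
    exact hBLK v W T g q A M G.inv x₄ y₄ r₄ c₄ k₄
  have E12 := hEQE v W T g _ _ _ _ r₁ r₂ (hr₁.symm.trans hr₂)
  have E34 := hEQE v W T g _ _ _ _ r₃ r₄ (hr₃.symm.trans hr₄)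
  have E13 := hEQE v W T g _ _ _ _ c₁ c₃ (hc₁.symm.trans hc₃)
  have E24 := hEQE v W T g _ _ _ _ c₂ c₄ (hc₂.symm.trans hc₄)
  have E14 := hEQE v W T g _ _ _ _ _ _ ((s₁.symm.trans e1.symm).trans s₄)
  have E23 := hEQE v W T g _ _ _ _ _ _ ((s₂.symm.trans e2.symm).trans s₃)
  -- exclusions in a cell
  have key : ∀ (c : ZMod v) (r s : W ⊕ Fib g c), ¬ InHole r s →
      ¬ (r.isRight = true ∧ s.isRight = true) ∧
      ¬ (r.isRight = true ∧ (A c r s).isRight = true) ∧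
      ¬ (s.isRight = true ∧ (A c r s).isRight = true) := by
    intro c r s hrs
    have hin := hHIN W (Fib g c) h (A c) (G.hol c)
    refine ⟨hrs, ?_, ?_⟩
    · rcases r with i | a
      · simp
      · rcases s with j | b
        · have h5 := hin.1 a j
          intro h6
          rcases hA : A c (Sum.inr a) (Sum.inl j) with z | z
          · rw [hA] at h6
            simp at h6
          · rw [hA] at h5
            simp at h5
        · exact (hrs ⟨rfl, rfl⟩).elim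
    · rcases s with j | b
      · simp
      · rcases r with i | a
        · have h5 := hin.2 i b
          intro h6
          rcases hA : A c (Sum.inl i) (Sum.inr b) with z | z
          · rw [hA] at h6
            simp at h6
          · rw [hA] at h5
            simp at h5
        · exact (hrs ⟨rfl, rfl⟩).elim
  have K1 := key _ r₁ c₁ k₁
  have K2 := key _ r₂ c₂ k₂
  have K3 := key _ r₃ c₃ k₃
  have K4 := key _ r₄ c₄ k₄
  have lr : ∀ {α β : Type} (z : α ⊕ β), z.isLeft = true ↔ ¬ z.isRight = true := by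
    intro α β z
    cases z <;> simp
  rw [lr, lr] at E12 E34 E13 E24 E14 E23
  have ifl : ∀ {a b p q : Prop}, (¬ a ∧ ¬ b ∧ p) ∨ (a ∧ b ∧ q) → (a ↔ b) := by
    intro a b p q h
    exact h.elim (fun h => iff_of_false h.1 h.2.1) fun h => iff_of_true h.1 h.2.1
  have a12 := ifl E12
  have a34 := ifl E34
  have b13 := ifl E13
  have b24 := ifl E24
  have s14 := ifl E14
  have s23 := ifl E23
  rw [← a12] at K2
  rw [← b13, ← s23] at K3
  rw [← a34, ← b24, ← s14] at K4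
  have pj : ∀ {a b p q : Prop}, (¬ a ∧ ¬ b ∧ p) ∨ (a ∧ b ∧ q) → (¬ a ∧ p) ∨ (a ∧ q) := by
    intro a b p q h
    exact h.imp (fun h => ⟨h.1, h.2.2⟩) fun h => ⟨h.1, h.2.2⟩
  have L := hLIN v G.cop x₁ y₁ x₂ y₂ x₃ y₃ x₄ y₄ (r₁.isRight = true) (r₃.isRight = true)
    (c₁.isRight = true) (c₂.isRight = true) ((A (x₁ + 3 * y₁) r₁ c₁).isRight = true)
    ((A (x₂ + 3 * y₂) r₂ c₂).isRight = true)
    (pj E12) (pj E34) (pj E13) (pj E24) (pj E14) (pj E23)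
    K1.1 K2.1 K1.2.1 K2.2.1 K3.1 K4.1 K4.2.1 K3.2.1 K1.2.2 K3.2.2 K4.2.2 K2.2.2
  obtain ⟨⟨hx2, hy2⟩, ⟨hx3, hy3⟩, hx4, hy4⟩ := L
  subst hx2 hy2 hx3 hy3 hx4 hy4
  have f12 : r₁ = r₂ := emb_inj _ _ _ _ (hr₁.symm.trans hr₂)
  have f34 : r₃ = r₄ := emb_inj _ _ _ _ (hr₃.symm.trans hr₄)
  have f13 : c₁ = c₃ := emb_inj _ _ _ _ (hc₁.symm.trans hc₃)
  have f24 : c₂ = c₄ := emb_inj _ _ _ _ (hc₂.symm.trans hc₄)
  subst f12 f34 f13 f24
  exact ⟨x₁, y₁, r₁, c₁, r₃, c₂, hr₁, hc₁, hr₃, hc₂, k₁, k₄, k₃, k₂⟩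

end Pool.Agent.H38.HLS
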