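import Pool.Agent.H15.HLS.Targets

set_option autoImplicit false

open Pool.Agent.H51.Homog Pool.Agent.H22.HSQ Pool.Agent.H15.HLS

namespace Pool.Agent.H38.HLS

theorem transport {α β : Type} (e : α ≃ β) {h : ℕ} {L : β → β → β} (hL : IsLatin L)
    (hH : IsHomogeneous h L) : ∃ L' : α → α → α, IsLatin L' ∧ IsHomogeneous h L' := by
  refine ⟨fun a b => e.symm (L (e a) (e b)), ⟨fun r => ?_, fun c => ?_⟩, fun r c => ?_⟩
  · exact e.symm.bijective.comp ((hL.1 (e r)).comp e.bijective)
  · exact e.symm.bijective.comp ((hL.2 (e c)).comp e.bijective)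
  · rw [← hH (e r) (e c)]
    unfold intercalatesAt
    refine Set.ncard_congr (fun p _ => (e p.1, e p.2)) ?_ ?_ ?_
    · rintro ⟨a, b⟩ ⟨h1, h2, h3, h4⟩
      exact ⟨fun h => h1 (e.injective h), fun h => h2 (e.injective h), e.symm.injective h3,
        e.symm.injective h4⟩
    · rintro ⟨a, b⟩ ⟨a', b'⟩ _ _ h1
      have h2 := Prod.mk.inj h1
      exact Prod.ext (e.injective h2.1) (e.injective h2.2)
    · rintro ⟨a, b⟩ ⟨h1, h2, h3, h4⟩
      refine ⟨(e.symm a, e.symm b), ⟨?_, ?_, ?_, ?_⟩, ?_⟩
      · intro h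
        apply h1
        have h5 := congrArg e h
        simpa using h5
      · intro h
        apply h2
        have h5 := congrArg e h
        simpa using h5
      · show e.symm (L (e (e.symm a)) (e (e.symm b))) = e.symm (L (e r) (e c))
        rw [e.apply_symm_apply, e.apply_symm_apply]
        exact congrArg e.symm h3
      · show e.symm (L (e (e.symm a)) (e c)) = e.symm (L (e r) (e (e.symm b)))
        rw [e.apply_symm_apply, e.apply_symm_apply]
        exact congrArg e.symm h4
      · simp

theorem pf_TRO : T_TRO := by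
  intro α _ h n hn
  have e : α ≃ Fin n := Fintype.equivFinOfCardEq hn
  constructor
  · rintro ⟨L, hL, hH⟩
    exact transport e hL hH
  · rintro ⟨L, hL, hH⟩
    exact transport e.symm hL hH

end Pool.Agent.H38.HLS
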